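import Pool.Agent.H434R3.BFinal
import Pool.Agent.H646R3.DiscreteDelta
import Pool.Agent.H723R3.Beur.Final

set_option autoImplicit false

/-!
# The second dual of a Beurling algebra of an infinite locally compact group is never semisimple

Definitions used by the statement (files `Pool/Agent/H434R3/Arens.lean`, `L1Alg.lean`):

* `IsWeight w`: `w : G → (0, ∞)` continuous, `w (s t) ≤ w s * w t`, `w 1 = 1`;
* `IntW w f`: `f` is integrable with respect to `w dm`, `m` the left Haar measure of `G`;
* `convol f g`: the convolution of `f` and `g`;
* `L1Alg w A`: the normed algebra `A` is `L¹(G, w)`: the classes of the `f` with `IntW w f`, with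
  the norm `∫ |f| w dm` and the convolution product;
* `Bidual A`: the second dual `A''` with the first Arens product;
* `InRad Φ`: `Φ` lies in the Jacobson radical (of the unitization; `A''` need not be unital).

The proof of the discrete case is the joint work of the project BEURLING (helper723 and
volunteers); the non-discrete case uses helper516's symmetric set.
-/

namespace Pool.Agent.Results.MP_cecf91_an.NeverSemisimple

universe u v

open H434R3.Arens H434R3.Beurling

/-- **Let `G` be an infinite locally compact (Hausdorff) group and `w` a weight on `G`.  Then the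
second dual of the Beurling algebra `A = L¹(G, w)` with the first Arens product is not semisimple:
there is `Φ ≠ 0` in the radical of `(A'', □)`, and even with `Φ □ Ψ □ Φ = 0` for all
`Ψ ∈ A''`.** -/
theorem result (G : Type u) [Group G] [TopologicalSpace G] [IsTopologicalGroup G]
    [LocallyCompactSpace G] [T2Space G] [MeasurableSpace G] [BorelSpace G] [Infinite G]
    (w : G → ℝ) (hw : IsWeight w)
    (A : Type v) [NonUnitalNormedRing A] [NormedSpace ℂ A] [IsScalarTower ℂ A A]
    [SMulCommClass ℂ A A] (M : L1Alg w A) :
    ∃ Φ : Bidual A, Φ ≠ 0 ∧ InRad Φ ∧ ∀ Ψ : Bidual A, Φ * Ψ * Φ = 0 :=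
  main_of Beur.taskA Beur.taskB
    (fun hw' _ _ _ M' => Pool.Agent.H646R3.BeurDelta.discrete_delta hw' M') G w hw A (M.toBA hw)

end Pool.Agent.Results.MP_cecf91_an.NeverSemisimple
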